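import Pool.Agent.H11.NY.Targets

/-!
# Board ny_modules (MP_9b2842_al), module `BC`
-/

set_option autoImplicit false

open Equiv (Perm)
open scoped TensorProduct

namespace Pool.Agent.H33.NY.BC

open Pool.Agent.H11.NY

theorem pf_bc : T_BC := by
  intro ℓ _ L W _ _ _ _ _ ρ hirr
  obtain ⟨⟨w₀, hw₀⟩, hirr⟩ := hirr
  let K := AlgebraicClosure (ZMod ℓ)
  let T := K ⊗[ZMod ℓ] W
  have hfinW : Module.Finite (ZMod ℓ) W := Module.Finite.of_finite
  have hntW : Nontrivial W := ⟨⟨w₀, 0, hw₀⟩⟩
  let ρ' : L → (T →ₗ[K] T) := fun y => (ρ y).baseChange K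
  have hρ'1 : ∀ (y : L) (k : K) (w : W), ρ' y (k ⊗ₜ[ZMod ℓ] w) = k ⊗ₜ[ZMod ℓ] (ρ y w) :=
    fun y k w => LinearMap.baseChange_tmul _ _ _
  have hmul : ∀ (x y : L) (t : T), ρ' (x * y) t = ρ' x (ρ' y t) := by
    intro x y t
    induction t using TensorProduct.induction_on with
    | zero => simp
    | tmul k w => rw [hρ'1, hρ'1, hρ'1, map_mul]; rfl
    | add t u ht hu => rw [map_add, map_add, map_add, ht, hu]
  have hone : ∀ t : T, ρ' 1 t = t := by
    intro t
    induction t using TensorProduct.induction_on with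
    | zero => simp
    | tmul k w => rw [hρ'1, map_one]; rfl
    | add t u ht hu => rw [map_add, ht, hu]
  have hfinT : Module.Finite K T := inferInstance
  have hntT : Nontrivial T := by
    apply Module.nontrivial_of_finrank_pos (R := K)
    rw [Module.finrank_baseChange]
    exact Module.finrank_pos
  -- a maximal proper invariant submodule
  obtain ⟨T₀, ⟨hT₀top, hT₀inv⟩, hT₀max⟩ := WellFounded.has_min
    (wellFounded_gt (α := Submodule K T))
    {S | S ≠ ⊤ ∧ ∀ y : L, ∀ t ∈ S, ρ' y t ∈ S}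
    ⟨⊥, bot_ne_top, by
      intro y t ht
      rw [Submodule.mem_bot] at ht ⊢
      rw [ht, map_zero]⟩
  have hle : ∀ y, T₀ ≤ T₀.comap (ρ' y) := fun y t ht => hT₀inv y t ht
  let τ : L →* Module.End K (T ⧸ T₀) :=
    { toFun := fun y => T₀.mapQ T₀ (ρ' y) (hle y)
      map_one' := by
        apply LinearMap.ext
        intro v
        obtain ⟨t, rfl⟩ := T₀.mkQ_surjective v
        rw [Submodule.mkQ_apply, Submodule.mapQ_apply, hone]; rfl
      map_mul' := by
        intro x y
        apply LinearMap.ext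
        intro v
        obtain ⟨t, rfl⟩ := T₀.mkQ_surjective v
        rw [Submodule.mkQ_apply, Submodule.mapQ_apply, hmul, Module.End.mul_apply,
          Submodule.mapQ_apply, Submodule.mapQ_apply] }
  have hτ : ∀ (y : L) (t : T), τ y (T₀.mkQ t) = T₀.mkQ (ρ' y t) := by
    intro y t
    exact Submodule.mapQ_apply (h := hle y) _ _ _ _
  let f : W →+ (T ⧸ T₀) :=
    (T₀.mkQ.toAddMonoidHom).comp ((TensorProduct.mk (ZMod ℓ) K W 1).toAddMonoidHom)
  have hf : ∀ w, f w = T₀.mkQ ((1 : K) ⊗ₜ[ZMod ℓ] w) := fun w => rfl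
  refine ⟨T ⧸ T₀, inferInstance, inferInstance, inferInstance, τ, f, ⟨?_, ?_⟩, ?_, ?_, ?_⟩
  · have hnt : Nontrivial (T ⧸ T₀) := Submodule.Quotient.nontrivial_iff.2 hT₀top
    exact exists_ne 0
  · intro S hS
    by_cases h1 : S.comap T₀.mkQ = ⊤
    · right
      rw [eq_top_iff]
      intro v _
      obtain ⟨t, rfl⟩ := T₀.mkQ_surjective v
      have : t ∈ S.comap T₀.mkQ := by rw [h1]; trivial
      exact this
    · left
      have h2 : S.comap T₀.mkQ ∈ {S : Submodule K T | S ≠ ⊤ ∧ ∀ y : L, ∀ t ∈ S, ρ' y t ∈ S} := by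
        refine ⟨h1, ?_⟩
        intro y t ht
        rw [Submodule.mem_comap] at ht ⊢
        rw [← hτ]
        exact hS y _ ht
      have h3 : T₀ ≤ S.comap T₀.mkQ := by
        intro t ht
        rw [Submodule.mem_comap, (Submodule.Quotient.mk_eq_zero T₀).2 ht |> (fun h => (by
          rw [Submodule.mkQ_apply, h] : T₀.mkQ t = 0))]
        exact S.zero_mem
      have h4 : ¬ T₀ < S.comap T₀.mkQ := hT₀max _ h2
      have h5 : T₀ = S.comap T₀.mkQ := by
        by_contra hne
        exact h4 (lt_of_le_of_ne h3 hne)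
      rw [eq_bot_iff]
      intro v hv
      obtain ⟨t, rfl⟩ := T₀.mkQ_surjective v
      have h6 : t ∈ T₀ := by rw [h5]; exact hv
      rw [Submodule.mem_bot, Submodule.mkQ_apply]
      exact (Submodule.Quotient.mk_eq_zero T₀).2 h6
  · -- injectivity
    rw [injective_iff_map_eq_zero]
    intro w hw
    let N : Submodule (ZMod ℓ) W :=
      (T₀.restrictScalars (ZMod ℓ)).comap (TensorProduct.mk (ZMod ℓ) K W 1)
    have hN : ∀ w, w ∈ N ↔ (1 : K) ⊗ₜ[ZMod ℓ] w ∈ T₀ := fun w => Iff.rfl
    have hNinv : ∀ y : L, ∀ w ∈ N, ρ y w ∈ N := by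
      intro y w hw
      rw [hN] at hw ⊢
      rw [← hρ'1]
      exact hT₀inv y _ hw
    rcases hirr N hNinv with h1 | h1
    · have h2 : w ∈ N := by
        rw [hN]
        rw [hf, Submodule.mkQ_apply] at hw
        exact (Submodule.Quotient.mk_eq_zero T₀).1 hw
      rw [h1] at h2
      exact (Submodule.mem_bot _).1 h2
    · exfalso
      apply hT₀top
      rw [eq_top_iff]
      intro t _
      induction t using TensorProduct.induction_on with
      | zero => exact T₀.zero_mem
      | tmul k w =>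
        have h2 : w ∈ N := by rw [h1]; trivial
        rw [hN] at h2
        have h3 : k ⊗ₜ[ZMod ℓ] w = k • ((1 : K) ⊗ₜ[ZMod ℓ] w) := by
          rw [TensorProduct.smul_tmul', smul_eq_mul, mul_one]
        rw [h3]
        exact T₀.smul_mem k h2
      | add t u ht hu => exact T₀.add_mem (ht trivial) (hu trivial)
  · intro y w
    rw [hf, hf, hτ, hρ'1]
  · intro a h q hrel v
    obtain ⟨t, rfl⟩ := T₀.mkQ_surjective v
    have h1 : ρ' h (∑ j ∈ Finset.range q, ρ' (a ^ j) t) =
        ∑ j ∈ Finset.range q, ρ' (a ^ j) t := by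
      induction t using TensorProduct.induction_on with
      | zero => simp
      | tmul k w =>
        simp only [hρ'1]
        rw [← TensorProduct.tmul_sum, hρ'1, hrel w]
      | add t u ht hu =>
        simp only [map_add, Finset.sum_add_distrib] at ht hu ⊢
        rw [ht, hu]
    have h2 : ∑ j ∈ Finset.range q, τ (a ^ j) (T₀.mkQ t) =
        T₀.mkQ (∑ j ∈ Finset.range q, ρ' (a ^ j) t) := by
      rw [map_sum]
      exact Finset.sum_congr rfl (fun j _ => hτ _ _)
    rw [h2, hτ, h1]

end Pool.Agent.H33.NY.BC
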