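import Pool.Agent.H11.NY.Targets

/-!
# Board ny_modules (MP_9b2842_al), module `FL1`
-/

set_option autoImplicit false

open Equiv (Perm)

namespace Pool.Agent.H33.NY.FL1

open Pool.Agent.H11.NY

theorem pf_fl1 : T_RP → T_SR → T_I3 → T_FL1 := by
  intro hRP hSR hI3 e
  obtain ⟨B₀, hB₀⟩ := hRP e
  refine ⟨max B₀ 1, ?_⟩
  intro L Ω _ _ _ _ ψ hsurj hperf K₀ hK₀n hK₀ hder q p a h P hpair hqK hPc hPn hPp hhP hex
  have hψK : ∀ x ∈ K₀, ψ x = 1 := fun x hx => hK₀ hx
  let μ : L →* L ⧸ K₀ := QuotientGroup.mk' K₀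
  have hμs : Function.Surjective μ := QuotientGroup.mk'_surjective K₀
  have hμ1 : ∀ x : L, μ x = 1 ↔ x ∈ K₀ := fun x => QuotientGroup.eq_one_iff x
  let ψH : (L ⧸ K₀) →* alternatingGroup Ω := QuotientGroup.lift K₀ ψ hψK
  have hψH : ∀ x : L, ψH (μ x) = ψ x := fun x => QuotientGroup.lift_mk' K₀ hψK x
  have hsurjH : Function.Surjective ψH := by
    intro y
    obtain ⟨x, hx⟩ := hsurj y
    exact ⟨μ x, by rw [hψH, hx]⟩
  have hperfH : commutator (L ⧸ K₀) = ⊤ := by
    have h1 : (commutator L).map μ = ⊤ := by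
      rw [hperf]
      exact Subgroup.map_top_of_surjective μ hμs
    rw [commutator_def, Subgroup.map_commutator, Subgroup.map_top_of_surjective μ hμs] at h1
    rw [commutator_def]
    exact h1
  -- the kernel of the quotient is soluble
  have hsol : Group.IsSolvable ψH.ker := by
    obtain ⟨d, hd⟩ := hder
    let F : ψ.ker →* ψH.ker :=
      { toFun := fun x => ⟨μ x, by rw [MonoidHom.mem_ker, hψH]; exact x.2⟩
        map_one' := by
          apply Subtype.ext
          simp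
        map_mul' := by
          intro x y
          apply Subtype.ext
          simp }
    have hF : ∀ x : ψ.ker, ((F x : ψH.ker) : L ⧸ K₀) = μ x := fun x => rfl
    have hFs : Function.Surjective F := by
      rintro ⟨y, hy⟩
      obtain ⟨x, rfl⟩ := hμs y
      rw [MonoidHom.mem_ker, hψH] at hy
      exact ⟨⟨x, hy⟩, rfl⟩
    refine ⟨⟨d, ?_⟩⟩
    rw [← map_derivedSeries_eq hFs d, eq_bot_iff]
    rintro _ ⟨x, hx, rfl⟩
    rw [Subgroup.mem_bot]
    apply Subtype.ext
    rw [hF, OneMemClass.coe_one, hμ1]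
    exact hd ⟨x, hx, rfl⟩
  -- the hypothesis of `I3`
  have hchief : ∀ ℓ : ℕ, ℓ.Prime → ∀ A B : Subgroup (L ⧸ K₀), A.Normal → B.Normal → B < A →
      A ≤ ψH.ker → IsPGroup ℓ A →
      (∀ M : Subgroup (L ⧸ K₀), M.Normal → B ≤ M → M ≤ A → M = B ∨ M = A) →
      LocSec ψH e A B := by
    intro ℓ hℓ A B hA hB hBA hAk hpg hmin
    refine hB₀ (L ⧸ K₀) Ω ψH hsurjH hperfH hsol ℓ hℓ A B hA hB hBA hAk hpg hmin ?_
    intro r hr
    have hA1 : (A.comap μ).Normal := hA.comap μ
    have hB1 : (B.comap μ).Normal := hB.comap μ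
    have hK₀B : K₀ ≤ B.comap μ := by
      intro x hx
      rw [Subgroup.mem_comap, (hμ1 x).2 hx]
      exact one_mem _
    have hB1A1 : B.comap μ ≤ A.comap μ := Subgroup.comap_mono hBA.le
    have hB1A1' : B.comap μ < A.comap μ := by
      refine lt_of_le_of_ne hB1A1 ?_
      intro heq
      exact hBA.ne (Subgroup.comap_injective hμs heq)
    have hA1k : A.comap μ ≤ ψ.ker := by
      intro x hx
      have h1 := hAk (Subgroup.mem_comap.1 hx)
      rw [MonoidHom.mem_ker, hψH] at h1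
      exact h1
    have hA1p : ∀ x ∈ A.comap μ, ∃ k : ℕ, x ^ (ℓ ^ k) ∈ K₀ := by
      intro x hx
      obtain ⟨k, hk⟩ := hpg ⟨μ x, hx⟩
      refine ⟨k, ?_⟩
      rw [← hμ1, map_pow]
      exact congrArg Subtype.val hk
    obtain ⟨i, hqr, hqℓ, hpℓ⟩ := hex ℓ hℓ (A.comap μ) hA1 (lt_of_le_of_lt hK₀B hB1A1')
      hA1k hA1p r hr
    obtain ⟨hq, hq5, hqe, hp, hpe, haq, hah, hhp, ha1, hha, hsupp⟩ := hpair i
    -- elements of the group generated by `a`, `h` in `K₀` are trivial
    have hinj : ∀ j k : ℕ, a i ^ j * h i ^ k ∈ K₀ → a i ^ j * h i ^ k = 1 := by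
      intro j k hjk
      by_contra hne
      have h1 := hsupp j k hne
      rw [hψK _ hjk] at h1
      simp at h1
    refine ⟨q i, p i, μ (a i), μ (h i), hqr, hqℓ, hpℓ, ⟨hq, hq5, hqe, hp, hpe, ?_, ?_, ?_,
      ?_, ?_, ?_⟩, ?_⟩
    · rw [← map_pow, haq, map_one]
    · rw [← map_mul, hah, map_mul]
    · rcases hhp with h1 | ⟨h1, h2⟩
      · left; rw [← map_pow, h1, map_one]
      · right; exact ⟨h1, by rw [← map_pow, h2]⟩
    · intro h1
      have h2 : a i ^ 1 * h i ^ 0 ∈ K₀ := by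
        rw [pow_one, pow_zero, mul_one]; exact (hμ1 _).1 h1
      have h3 := hinj 1 0 h2
      rw [pow_one, pow_zero, mul_one] at h3
      exact ha1 h3
    · intro h1
      obtain ⟨n, hn⟩ := (mem_powers_iff_mem_zpowers.2 h1)
      have hn' : μ (a i) ^ n = μ (h i) := hn
      have h2 : a i ^ (n * (q i - 1)) * h i ^ 1 ∈ K₀ := by
        rw [← hμ1, map_mul, map_pow, pow_one, ← hn', ← pow_add]
        have h3 : n * (q i - 1) + n = q i * n := by
          have := hq.pos
          calc n * (q i - 1) + n = n * (q i - 1 + 1) := by ring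
            _ = n * q i := by rw [Nat.sub_add_cancel this]
            _ = q i * n := by ring
        rw [h3, pow_mul, ← map_pow, haq, map_one, one_pow]
      have h3 := hinj _ _ h2
      apply hha
      rw [pow_one] at h3
      have h4 : h i = (a i ^ (n * (q i - 1)))⁻¹ := (eq_inv_of_mul_eq_one_right h3)
      rw [h4]
      exact inv_mem (Subgroup.npow_mem_zpowers _ _)
    · intro j k hjk
      have h1 : a i ^ j * h i ^ k ≠ 1 := by
        intro h2
        apply hjk
        rw [← map_pow, ← map_pow, ← map_mul, h2, map_one]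
      have h2 := hsupp j k h1
      rw [← map_pow, ← map_pow, ← map_mul, hψH]
      exact le_trans (le_max_left _ _) h2
    · intro x hx hxa
      obtain ⟨y, rfl⟩ := hμs x
      have h1 : a i * y * (a i)⁻¹ * y⁻¹ ∈ B.comap μ := by
        rw [Subgroup.mem_comap]
        simpa only [map_mul, map_inv] using hxa
      have h2 := hSR L K₀ (A.comap μ) (B.comap μ) hK₀B hB1A1 hA1 hB1 ℓ (q i) (p i) hℓ hq hp
        hqℓ hpℓ (hqK i) hA1p (a i) (h i) (P i) haq (hPc i) (hPn i) (hPp i) (hhP i) y hx h1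
      rw [Subgroup.mem_comap] at h2
      simpa only [map_mul, map_inv] using h2
  have hmain := hI3 (L ⧸ K₀) Ω ψH e hsol hchief
  -- back to `L`
  have hPerf : ∀ (Δ : Finset Ω) (D : Subgroup L), PerfOn ψ Δ D → PerfOn ψH Δ (D.map μ) := by
    intro Δ D hD
    refine ⟨?_, ?_⟩
    · rw [← Subgroup.map_commutator, hD.1]
    · rintro _ ⟨d, hd, rfl⟩ x hx
      rw [hψH]
      exact hD.2 d hd x hx
  intro Δ Δ' hdisj hΔ hΔ' D D' hD hD' d hd d' hd'
  have h1 := hmain Δ Δ' hdisj hΔ hΔ' _ _ (hPerf Δ D hD) (hPerf Δ' D' hD') (μ d)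
    ⟨d, hd, rfl⟩ (μ d') ⟨d', hd', rfl⟩
  rw [Subgroup.mem_bot] at h1
  rw [← hμ1]
  simpa only [map_mul, map_inv] using h1

end Pool.Agent.H33.NY.FL1
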