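import Pool.Agent.H11.NY.Targets

/-!
# Board ny_modules (MP_9b2842_al), module `H1`
-/

set_option autoImplicit false

open Equiv (Perm)

namespace Pool.Agent.H33.NY.H1

open Pool.Agent.H11.NY

/-- even permutation with two prescribed values -/
theorem even_perm {m : ℕ} (hm : 4 ≤ m) (i j k l : Fin m) (hij : i ≠ j) (hkl : k ≠ l) :
    ∃ π : Perm (Fin m), Equiv.Perm.sign π = 1 ∧ π i = k ∧ π j = l := by
  have h0 : ∃ π : Perm (Fin m), π i = k ∧ π j = l := by
    refine ⟨Equiv.swap (Equiv.swap i k j) l * Equiv.swap i k, ?_, ?_⟩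
    · rw [Equiv.Perm.mul_apply, Equiv.swap_apply_left, Equiv.swap_apply_of_ne_of_ne _ hkl]
      intro h
      have : Equiv.swap i k i = Equiv.swap i k j := by rw [Equiv.swap_apply_left]; exact h
      exact hij ((Equiv.swap i k).injective this)
    · rw [Equiv.Perm.mul_apply, Equiv.swap_apply_left]
  obtain ⟨π₀, h1, h2⟩ := h0
  rcases Int.units_eq_one_or (Equiv.Perm.sign π₀) with hs | hs
  · exact ⟨π₀, hs, h1, h2⟩
  · have hcard : 1 < ((Finset.univ.erase i).erase j).card := by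
      rw [Finset.card_erase_of_mem, Finset.card_erase_of_mem, Finset.card_univ,
        Fintype.card_fin]
      · omega
      · exact Finset.mem_univ _
      · exact Finset.mem_erase.2 ⟨hij.symm, Finset.mem_univ _⟩
    obtain ⟨u, hu, v, hv, huv⟩ := Finset.one_lt_card.1 hcard
    have hui : u ≠ i := (Finset.mem_erase.1 (Finset.mem_erase.1 hu).2).1
    have huj : u ≠ j := (Finset.mem_erase.1 hu).1
    have hvi : v ≠ i := (Finset.mem_erase.1 (Finset.mem_erase.1 hv).2).1
    have hvj : v ≠ j := (Finset.mem_erase.1 hv).1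
    refine ⟨π₀ * Equiv.swap u v, ?_, ?_, ?_⟩
    · rw [Equiv.Perm.sign_mul, hs, Equiv.Perm.sign_swap huv]; rfl
    · rw [Equiv.Perm.mul_apply, Equiv.swap_apply_of_ne_of_ne hui.symm hvi.symm, h1]
    · rw [Equiv.Perm.mul_apply, Equiv.swap_apply_of_ne_of_ne huj.symm hvj.symm, h2]

/-- the powers of `ω` determine the exponents in `ZMod q` -/
theorem omega_inj {q : ℕ} {K V : Type} [Field K] [AddCommGroup V] [Module K V]
    (hq : q.Prime) (ω : K) (h1 : ω ^ q = 1) (h2 : ω ≠ 1) (v : V) (hv : v ≠ 0) (α β : ZMod q)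
    (h : ω ^ α.val • v = ω ^ β.val • v) : α = β := by
  have : Fact q.Prime := ⟨hq⟩
  have h3 : ω ^ α.val = ω ^ β.val := smul_left_injective K hv h
  have hord : orderOf ω = q := orderOf_eq_prime h1 h2
  have h4 : α.val ∈ Set.Iio (orderOf ω) := by rw [Set.mem_Iio, hord]; exact ZMod.val_lt α
  have h5 : β.val ∈ Set.Iio (orderOf ω) := by rw [Set.mem_Iio, hord]; exact ZMod.val_lt β
  exact ZMod.val_injective q (pow_injOn_Iio_orderOf h4 h5 h3)

theorem pf_h1 : T_C4 → T_H1 := by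
  intro hC4 q m L Ω _ _ _ _ ψ K V _ _ _ ρ c ω s a h ζ hS hij χ hχ hsum k l
  obtain ⟨hq, hq5, hm, hsurj, -, -, hcan, hω, hω1, -, hcyc, -, -, ha, hah⟩ := hS
  obtain ⟨i, j, hne, hconj⟩ := hij
  -- the two weights at `i` and `j` agree
  have key : ∀ χ : Fin m → ZMod q, Occ ω (fun i => c (s i)) χ → ζ + ∑ i, χ i = 0 →
      χ i = χ j := by
    intro χ hχ hsum
    obtain ⟨v, hv, hw⟩ := hχ
    have hav : ρ a v = v := by
      rw [ha χ v hw, hsum]
      have : NeZero q := ⟨hq.ne_zero⟩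
      simp
    have hhv : ρ h v = v := hah v hav
    have hcomm := (hcan (s i) (hcyc.1 i).1 (hcyc.1 i).2).2.2.2 h
    rw [hconj] at hcomm
    have h1 : ρ h (c (s i) v) = c (s j) (ρ h v) := LinearMap.congr_fun hcomm v
    have h2 : c (s i) v = ω ^ (χ i).val • v := hw i
    have h3 : c (s j) v = ω ^ (χ j).val • v := hw j
    rw [h2, map_smul, hhv, h3] at h1
    exact omega_inj hq ω hω hω1 v hv _ _ h1
  by_cases hkl : k = l
  · rw [hkl]
  obtain ⟨π, hπ, hπi, hπj⟩ := even_perm (by omega) i j k l hne hkl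
  have hocc := (hC4 q m L Ω ψ K V ρ c ω s χ hq hq5 hsurj hcan hω hω1 hcyc hχ).1 π hπ
  have h1 := key (fun i => χ (π i)) hocc (by rw [Equiv.sum_comp π χ]; exact hsum)
  simpa [hπi, hπj] using h1

end Pool.Agent.H33.NY.H1
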