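import Pool.Agent.H11.NY.Targets

/-!
# Board ny_modules (MP_9b2842_al), module `H2`
-/

set_option autoImplicit false

open Equiv (Perm)

namespace Pool.Agent.H33.NY.H2

open Pool.Agent.H11.NY

/-- even permutation with two prescribed values -/
theorem even_perm {m : ℕ} (hm : 4 ≤ m) (i j k l : Fin m) (hij : i ≠ j) (hkl : k ≠ l) :
    ∃ π : Perm (Fin m), Equiv.Perm.sign π = 1 ∧ π i = k ∧ π j = l := by
  have h0 : ∃ π : Perm (Fin m), π i = k ∧ π j = l := by
    refine ⟨Equiv.swap (Equiv.swap i k j) l * Equiv.swap i k, ?_, ?_⟩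
    · rw [Equiv.Perm.mul_apply, Equiv.swap_apply_left, Equiv.swap_apply_of_ne_of_ne _ hkl]
      intro h
      have : Equiv.swap i k i = Equiv.swap i k j := by rw [Equiv.swap_apply_left]; exact h
      exact hij ((Equiv.swap i k).injective this)
    · rw [Equiv.Perm.mul_apply, Equiv.swap_apply_left]
  obtain ⟨π₀, h1, h2⟩ := h0
  rcases Int.units_eq_one_or (Equiv.Perm.sign π₀) with hs | hs
  · exact ⟨π₀, hs, h1, h2⟩
  · have hcard : 1 < ((Finset.univ.erase i).erase j).card := by
      rw [Finset.card_erase_of_mem, Finset.card_erase_of_mem, Finset.card_univ,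
        Fintype.card_fin]
      · omega
      · exact Finset.mem_univ _
      · exact Finset.mem_erase.2 ⟨hij.symm, Finset.mem_univ _⟩
    obtain ⟨u, hu, v, hv, huv⟩ := Finset.one_lt_card.1 hcard
    have hui : u ≠ i := (Finset.mem_erase.1 (Finset.mem_erase.1 hu).2).1
    have huj : u ≠ j := (Finset.mem_erase.1 hu).1
    have hvi : v ≠ i := (Finset.mem_erase.1 (Finset.mem_erase.1 hv).2).1
    have hvj : v ≠ j := (Finset.mem_erase.1 hv).1
    refine ⟨π₀ * Equiv.swap u v, ?_, ?_, ?_⟩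
    · rw [Equiv.Perm.sign_mul, hs, Equiv.Perm.sign_swap huv]; rfl
    · rw [Equiv.Perm.mul_apply, Equiv.swap_apply_of_ne_of_ne hui.symm hvi.symm, h1]
    · rw [Equiv.Perm.mul_apply, Equiv.swap_apply_of_ne_of_ne huj.symm hvj.symm, h2]

/-- the powers of `ω` determine the exponents in `ZMod q` -/
theorem omega_pow {q : ℕ} {K : Type} [Field K] (hq : q.Prime) (ω : K) (h1 : ω ^ q = 1)
    (h2 : ω ≠ 1) (α β : ℕ) (h : ω ^ α = ω ^ β) : (α : ZMod q) = (β : ZMod q) := by
  have : Fact q.Prime := ⟨hq⟩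
  have hord : orderOf ω = q := orderOf_eq_prime h1 h2
  have hfin : IsOfFinOrder ω := by
    rw [← orderOf_pos_iff, hord]; exact hq.pos
  have h3 := hfin.pow_eq_pow_iff_modEq.1 h
  rw [hord] at h3
  exact (ZMod.natCast_eq_natCast_iff _ _ _).2 h3

/-- product of operators with a common eigenvector -/
theorem prod_eig {m : ℕ} {L K V : Type} [Group L] [Field K] [AddCommGroup V] [Module K V]
    (ρ : L →* Module.End K V) (f : Fin m → L) (g : Fin m → K) (v : V)
    (h : ∀ i, ρ (f i) v = g i • v) (l : List (Fin m)) :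
    ρ (l.map f).prod v = (l.map g).prod • v := by
  induction l with
  | nil => simp
  | cons i t ih =>
    rw [List.map_cons, List.prod_cons, List.map_cons, List.prod_cons, map_mul,
      Module.End.mul_apply, ih, map_smul, h, smul_smul, mul_comm]

/-- value of a product of permutations at a point moved by one of them only -/
theorem prod_fix {m : ℕ} {Ω : Type} (f : Fin m → Perm Ω) (x : Ω) (l : List (Fin m))
    (h : ∀ i ∈ l, f i x = x) : (l.map f).prod x = x := by
  induction l with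
  | nil => simp
  | cons i t ih =>
    rw [List.map_cons, List.prod_cons, Equiv.Perm.mul_apply,
      ih (fun k hk => h k (List.mem_cons_of_mem _ hk)), h i List.mem_cons_self]

theorem prod_one {m : ℕ} {Ω : Type} (f : Fin m → Perm Ω) (j : Fin m) (x : Ω)
    (l : List (Fin m)) (hl : l.Nodup) (hj : j ∈ l) (h1 : ∀ i, i ≠ j → f i x = x)
    (h2 : ∀ i, i ≠ j → f i (f j x) = f j x) : (l.map f).prod x = f j x := by
  induction l with
  | nil => simp at hj
  | cons i t ih =>
    rw [List.map_cons, List.prod_cons, Equiv.Perm.mul_apply]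
    rw [List.nodup_cons] at hl
    by_cases hij : i = j
    · subst hij
      rw [prod_fix f x t]
      intro k hk
      apply h1
      rintro rfl
      exact hl.1 hk
    · have hjt : j ∈ t := by
        rcases List.mem_cons.1 hj with h | h
        · exact absurd h.symm hij
        · exact h
      rw [ih hl.2 hjt, h2 i hij]

/-- the claim -/
theorem claim (hC1 : T_C1) (hDX : T_DX) (hC3 : T_C3) (q m : ℕ) (L Ω : Type) [Group L]
    [Finite L] [Fintype Ω] [DecidableEq Ω] (ψ : L →* alternatingGroup Ω) (K V : Type)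
    [Field K] [AddCommGroup V] [Module K V] (ρ : L →* Module.End K V)
    (c : Perm Ω → Module.End K V) (ω : K) (s : Fin m → Perm Ω) (a h : L) (ζ : ZMod q)
    (hS : Setting q m ψ ρ c ω s a h ζ) (κ : Fin m → ℕ)
    (hκ : ∀ i, ∀ x ∈ (s i).support, (ψ h : Perm Ω) x = (s i ^ κ i) x)
    (χ : Fin m → ZMod q) (hχ : Occ ω (fun i => c (s i)) χ) (hsum : ζ + ∑ i, χ i = 0)
    (π : Perm (Fin m)) (hπ : Equiv.Perm.sign π = 1) :
    ∑ i, (κ i : ZMod q) * χ i = ∑ i, (κ i : ZMod q) * χ (π i) := by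
  classical
  obtain ⟨hq, hq5, hm, hsurj, hV, hscal, hcan, hω, hω1, -, hcyc, -, -, ha, hah⟩ := hS
  have : Fact q.Prime := ⟨hq⟩
  -- the lifts
  have hlift : ∀ i, ∃ d : L, (ψ d : Perm Ω) = s i ∧ ∃ z : K, z ≠ 0 ∧ c (s i) = z • ρ d :=
    fun i => (hcan (s i) (hcyc.1 i).1 (hcyc.1 i).2).1
  choose d hd z hz hcz using hlift
  set P : L := ((List.finRange m).map (fun i => d i ^ κ i)).prod with hP
  set g : L := h⁻¹ * P with hg
  -- supports
  have hdis : ∀ i j, i ≠ j → ∀ x ∈ (s j).support, s i x = x := by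
    intro i j hij x hx
    rcases hcyc.2 i j hij x with h1 | h1
    · exact h1
    · exact absurd h1 (Equiv.Perm.mem_support.1 hx)
  have hψP : ∀ j, ∀ x ∈ (s j).support, (ψ P : Perm Ω) x = (s j ^ κ j) x := by
    intro j x hx
    have h1 : (ψ P : Perm Ω) = ((List.finRange m).map (fun i => s i ^ κ i)).prod := by
      have h2 : (ψ P : Perm Ω) =
          (((alternatingGroup Ω).subtype.comp ψ) P) := rfl
      rw [h2, hP, map_list_prod, List.map_map]
      congr 1
      apply List.map_congr_left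
      intro i _
      have h3 : ((alternatingGroup Ω).subtype.comp ψ) (d i) = s i := hd i
      rw [Function.comp_apply, map_pow, h3]
    rw [h1]
    refine prod_one (fun i => s i ^ κ i) j x _ (List.nodup_finRange m)
      (List.mem_finRange j) ?_ ?_
    · intro i hij
      exact Equiv.Perm.pow_apply_eq_self_of_apply_eq_self (hdis i j hij x hx) _
    · intro i hij
      exact Equiv.Perm.pow_apply_eq_self_of_apply_eq_self
        (hdis i j hij _ (Equiv.Perm.pow_apply_mem_support.2 hx)) _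
  set Δ : Finset Ω := Finset.univ.biUnion (fun i => (s i).support) with hΔ
  have hmemΔ : ∀ x, x ∈ Δ ↔ ∃ i, x ∈ (s i).support := by
    intro x
    rw [hΔ, Finset.mem_biUnion]
    simp
  have hgfix : ∀ x ∈ Δ, (ψ g : Perm Ω) x = x := by
    intro x hx
    obtain ⟨j, hj⟩ := (hmemΔ x).1 hx
    have h1 : (ψ g : Perm Ω) x = (ψ h : Perm Ω)⁻¹ ((ψ P : Perm Ω) x) := by
      rw [hg, map_mul, map_inv]; rfl
    rw [h1, hψP j x hj, ← hκ j x hj]
    exact Equiv.symm_apply_apply _ _
  have hΔ5 : 5 ≤ Δ.card := by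
    have h0 : 0 < m := by omega
    calc 5 ≤ q := hq5
      _ = (s ⟨0, h0⟩).support.card := (hcyc.1 _).2.symm
      _ ≤ Δ.card := Finset.card_le_card
        (Finset.subset_biUnion_of_mem (fun i => (s i).support) (Finset.mem_univ _))
  -- the permutation
  obtain ⟨w, hwA, hwfix, hwconj⟩ := (hC3 q m Ω hq (by omega) s hcyc).1 π⁻¹
    (by rw [Equiv.Perm.sign_inv, hπ])
  obtain ⟨D, hD, hDsurj⟩ := hDX L Ω ψ hsurj Δ hΔ5
  obtain ⟨x, hxD, hxw⟩ := hDsurj ⟨w, hwA⟩ (by
    intro y hy
    apply hwfix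
    intro i
    by_contra hne
    exact hy ((hmemΔ y).2 ⟨i, Equiv.Perm.mem_support.2 hne⟩))
  have hcommψ : ∀ d ∈ D, ψ g * ψ d = ψ d * ψ g := by
    intro d hdD
    have hdisj : Equiv.Perm.Disjoint (ψ g : Perm Ω) (ψ d : Perm Ω) := by
      intro y
      by_cases hy : y ∈ Δ
      · exact Or.inl (hgfix y hy)
      · exact Or.inr (hD.2 d hdD y hy)
    exact Subtype.ext hdisj.commute
  have hcomm : ρ g * ρ x = ρ x * ρ g := hC1 L Ω ψ K V ρ hV hscal D hD.1 g hcommψ x hxD
  -- the action of `g` on weight vectors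
  have hg_act : ∀ (χ : Fin m → ZMod q) (v : V), (∀ i, c (s i) v = ω ^ (χ i).val • v) →
      ζ + ∑ i, χ i = 0 →
      ρ g v = (((List.finRange m).map (fun i => (z i)⁻¹ ^ κ i)).prod *
        ω ^ (∑ i, κ i * (χ i).val)) • v := by
    intro χ v hw hsum
    have hav : ρ a v = v := by
      rw [ha χ v hw, hsum]
      have : NeZero q := ⟨hq.ne_zero⟩
      simp
    have hhv : ρ h v = v := hah v hav
    have hhinv : ρ h⁻¹ v = v := by
      have h1 : ρ h⁻¹ (ρ h v) = v := by
        rw [← Module.End.mul_apply, ← map_mul, inv_mul_cancel, map_one, Module.End.one_apply]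
      rw [hhv] at h1
      exact h1
    have hdv : ∀ i, ρ (d i) v = ((z i)⁻¹ * ω ^ (χ i).val) • v := by
      intro i
      have h1 : z i • ρ (d i) v = ω ^ (χ i).val • v := by
        rw [← hw i, hcz i]; rfl
      rw [mul_smul, ← h1, smul_smul, inv_mul_cancel₀ (hz i), one_smul]
    have hdκ : ∀ i, ρ (d i ^ κ i) v = ((z i)⁻¹ * ω ^ (χ i).val) ^ κ i • v := by
      intro i
      induction κ i with
      | zero => simp
      | succ n ih => rw [pow_succ', map_mul, Module.End.mul_apply, ih, map_smul, hdv i,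
          smul_smul, pow_succ]
    have h1 := prod_eig ρ (fun i => d i ^ κ i) _ v hdκ (List.finRange m)
    rw [hg, map_mul, Module.End.mul_apply, hP, h1, map_smul, hhinv]
    congr 1
    have h2 : (fun i => ((z i)⁻¹ * ω ^ (χ i).val) ^ κ i) =
        fun i => (z i)⁻¹ ^ κ i * ω ^ (κ i * (χ i).val) := by
      funext i
      rw [mul_pow, ← pow_mul, mul_comm (χ i).val]
    rw [h2, List.prod_map_mul]
    congr 1
    rw [← Finset.prod_pow_eq_pow_sum]
    exact (List.prod_ofFn (f := fun i => ω ^ (κ i * (χ i).val))).symm ▸ by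
      rw [List.ofFn_eq_map]
  obtain ⟨v, hv, hw⟩ := hχ
  have hχ' : ∀ i, c (s i) (ρ x v) = ω ^ (χ (π i)).val • ρ x v := by
    intro i
    have h1 := (hcan (s (π i)) (hcyc.1 _).1 (hcyc.1 _).2).2.2.2 x
    have h2 : (ψ x : Perm Ω) = w := by rw [hxw]
    have h4 : π⁻¹ (π i) = i := Equiv.symm_apply_apply _ _
    rw [h2, hwconj (π i), h4] at h1
    have h3 : ρ x (c (s (π i)) v) = c (s i) (ρ x v) := LinearMap.congr_fun h1 v
    rw [← h3, hw (π i), map_smul]
  have e1 := hg_act χ v hw hsum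
  have e2 := hg_act (fun i => χ (π i)) (ρ x v) hχ' (by rw [Equiv.sum_comp π χ]; exact hsum)
  have e3 : ρ g (ρ x v) = ρ x (ρ g v) := LinearMap.congr_fun hcomm v
  rw [e2, e1, map_smul] at e3
  have hxv : ρ x v ≠ 0 := by
    intro h0
    apply hv
    have h1 : ρ x⁻¹ (ρ x v) = v := by
      rw [← Module.End.mul_apply, ← map_mul, inv_mul_cancel, map_one, Module.End.one_apply]
    rw [← h1, h0, map_zero]
  have e4 := smul_left_injective K hxv e3
  have hZ : ((List.finRange m).map (fun i => (z i)⁻¹ ^ κ i)).prod ≠ 0 := by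
    apply List.prod_ne_zero
    intro h0
    obtain ⟨i, -, hi⟩ := List.mem_map.1 h0
    exact pow_ne_zero _ (inv_ne_zero (hz i)) hi
  have e5 := mul_left_cancel₀ hZ e4
  have e6 := omega_pow hq ω hω hω1 _ _ e5
  push_cast at e6
  simp only [ZMod.natCast_val, ZMod.cast_id', id_eq] at e6
  exact e6.symm

theorem pf_h2 : T_C1 → T_DX → T_C3 → T_C4 → T_H2 := by
  intro hC1 hDX hC3 hC4 q m L Ω _ _ _ _ ψ K V _ _ _ ρ c ω s a h ζ hS κ hκq hκ hij χ hχ
    hsum k' l'
  by_contra hne
  obtain ⟨i, j, hκij⟩ := hij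
  have hij : i ≠ j := fun h => hκij (by rw [h])
  have hq : q.Prime := hS.1
  have : Fact q.Prime := ⟨hq⟩
  have hm : q + 5 ≤ m := hS.2.2.1
  have hkl' : k' ≠ l' := fun h => hne (by rw [h])
  -- two further indices with the same exponent
  have hcard : (Finset.range q).card < ((Finset.univ.erase i).erase j).card := by
    rw [Finset.card_range, Finset.card_erase_of_mem, Finset.card_erase_of_mem,
      Finset.card_univ, Fintype.card_fin]
    · omega
    · exact Finset.mem_univ _
    · exact Finset.mem_erase.2 ⟨hij.symm, Finset.mem_univ _⟩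
  obtain ⟨k, hk, l, hl, hkl, hκkl⟩ := Finset.exists_ne_map_eq_of_card_lt_of_maps_to hcard
    (f := κ) (fun u _ => Finset.mem_coe.2 (Finset.mem_range.2 (hκq u)))
  have hki : k ≠ i := (Finset.mem_erase.1 (Finset.mem_erase.1 hk).2).1
  have hkj : k ≠ j := (Finset.mem_erase.1 hk).1
  have hli : l ≠ i := (Finset.mem_erase.1 (Finset.mem_erase.1 hl).2).1
  have hlj : l ≠ j := (Finset.mem_erase.1 hl).1
  obtain ⟨σ, hσ, hσi, hσj⟩ := even_perm (by omega) i j k' l' hij hkl'
  have hocc := (hC4 q m L Ω ψ K V ρ c ω s χ hq hS.2.1 hS.2.2.2.1 hS.2.2.2.2.2.2.1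
    hS.2.2.2.2.2.2.2.1 hS.2.2.2.2.2.2.2.2.1 hS.2.2.2.2.2.2.2.2.2.2.1 hχ).1 σ hσ
  set χ' : Fin m → ZMod q := fun i => χ (σ i) with hχ'
  have hsum' : ζ + ∑ i, χ' i = 0 := by
    rw [hχ', Equiv.sum_comp σ χ]; exact hsum
  set π : Perm (Fin m) := Equiv.swap i j * Equiv.swap k l with hπdef
  have hπ : Equiv.Perm.sign π = 1 := by
    rw [hπdef, Equiv.Perm.sign_mul, Equiv.Perm.sign_swap hij, Equiv.Perm.sign_swap hkl]
    rfl
  have hcl := claim hC1 hDX hC3 q m L Ω ψ K V ρ c ω s a h ζ hS κ hκ χ' hocc hsum' π hπ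
  have hπi : π i = j := by
    rw [hπdef, Equiv.Perm.mul_apply, Equiv.swap_apply_of_ne_of_ne hki.symm hli.symm,
      Equiv.swap_apply_left]
  have hπj : π j = i := by
    rw [hπdef, Equiv.Perm.mul_apply, Equiv.swap_apply_of_ne_of_ne hkj.symm hlj.symm,
      Equiv.swap_apply_right]
  have hπk : π k = l := by
    rw [hπdef, Equiv.Perm.mul_apply, Equiv.swap_apply_left,
      Equiv.swap_apply_of_ne_of_ne hli hlj]
  have hπl : π l = k := by
    rw [hπdef, Equiv.Perm.mul_apply, Equiv.swap_apply_right,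
      Equiv.swap_apply_of_ne_of_ne hki hkj]
  have hsub : ∑ u, (κ u : ZMod q) * (χ' u - χ' (π u)) = 0 := by
    simp only [mul_sub, Finset.sum_sub_distrib]
    rw [hcl, sub_self]
  have hred : ∑ u ∈ ({i, j, k, l} : Finset (Fin m)), (κ u : ZMod q) * (χ' u - χ' (π u)) =
      ∑ u, (κ u : ZMod q) * (χ' u - χ' (π u)) := by
    apply Finset.sum_subset (Finset.subset_univ _)
    intro u _ hu
    simp only [Finset.mem_insert, Finset.mem_singleton, not_or] at hu
    obtain ⟨h1, h2, h3, h4⟩ := hu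
    have h5 : π u = u := by
      rw [hπdef, Equiv.Perm.mul_apply, Equiv.swap_apply_of_ne_of_ne h3 h4,
        Equiv.swap_apply_of_ne_of_ne h1 h2]
    rw [h5, sub_self, mul_zero]
  rw [hsub] at hred
  rw [Finset.sum_insert (by simp [hij, hki.symm, hli.symm]),
    Finset.sum_insert (by simp [hkj.symm, hlj.symm]),
    Finset.sum_insert (by simp [hkl]), Finset.sum_singleton, hπi, hπj, hπk, hπl,
    hκkl] at hred
  have hfin : ((κ i : ZMod q) - (κ j : ZMod q)) * (χ' i - χ' j) = 0 := by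
    linear_combination hred
  rcases mul_eq_zero.1 hfin with h1 | h1
  · apply hκij
    have h2 : (κ i : ZMod q) = (κ j : ZMod q) := sub_eq_zero.1 h1
    have h3 := (ZMod.natCast_eq_natCast_iff _ _ _).1 h2
    exact Nat.ModEq.eq_of_lt_of_lt h3 (hκq i) (hκq j)
  · apply hne
    have h2 : χ' i = χ' j := sub_eq_zero.1 h1
    simpa [hχ', hσi, hσj] using h2

end Pool.Agent.H33.NY.H2
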