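import Pool.Agent.H11.NY.Targets

/-!
# Board ny_modules (MP_9b2842_al), module `A2`
-/

set_option autoImplicit false

open Equiv (Perm)

namespace Pool.Agent.H33.NY.A2

open Pool.Agent.H11.NY

theorem pf_a2 : T_A2 := by
  intro L Λ _ _ K V _ _ _ ρ W hind hW hne q a h hq haq hrel x
  by_contra hcon
  push Not at hcon
  obtain ⟨hax, hh⟩ := hcon
  obtain ⟨v, hvW, hv⟩ := (Submodule.ne_bot_iff _).1 (hne x)
  -- `a ^ j` moves `x` for `0 < j < q`
  have hmove : ∀ j, 0 < j → j < q → a ^ j • x ≠ x := by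
    intro j hj0 hjq hfix
    apply hax
    have hcop : Nat.Coprime j q := by
      rw [Nat.coprime_comm, Nat.Prime.coprime_iff_not_dvd hq]
      intro hd
      exact absurd (Nat.le_of_dvd hj0 hd) (by omega)
    have h1 : a ^ j ∈ MulAction.stabilizer L x := hfix
    have h2 : a ^ q ∈ MulAction.stabilizer L x := by rw [haq]; exact one_mem _
    have h3 : a ^ ((Nat.gcd j q : ℕ) : ℤ) ∈ MulAction.stabilizer L x := by
      rw [Nat.gcd_eq_gcd_ab, zpow_add, zpow_mul, zpow_mul]
      exact mul_mem (zpow_mem (by rw [zpow_natCast]; exact h1) _)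
        (zpow_mem (by rw [zpow_natCast]; exact h2) _)
    rw [hcop] at h3
    simpa using h3
  have key := hrel v
  have hleft : ρ h (∑ j ∈ Finset.range q, ρ (a ^ j) v) ∈ ⨆ (z) (_ : z ≠ x), W z := by
    rw [map_sum]
    refine Submodule.sum_mem _ ?_
    intro j hj
    have hjq := Finset.mem_range.1 hj
    have h1 : ρ h (ρ (a ^ j) v) ∈ W ((h * a ^ j) • x) := by
      rw [mul_smul]
      exact hW h _ _ (hW _ _ _ hvW)
    exact (le_iSup₂_of_le (f := fun z (_ : z ≠ x) => W z) ((h * a ^ j) • x) (hh j hjq)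
      le_rfl) h1
  have hq0 : 0 < q := hq.pos
  rw [key] at hleft
  have hsplit : ∑ j ∈ Finset.range q, ρ (a ^ j) v =
      v + ∑ j ∈ (Finset.range q).erase 0, ρ (a ^ j) v := by
    rw [← Finset.add_sum_erase _ _ (Finset.mem_range.2 hq0)]
    simp
  have hright : ∑ j ∈ (Finset.range q).erase 0, ρ (a ^ j) v ∈
      ⨆ (z) (_ : z ≠ x), W z := by
    refine Submodule.sum_mem _ ?_
    intro j hj
    obtain ⟨hj0, hjr⟩ := Finset.mem_erase.1 hj
    have hjq := Finset.mem_range.1 hjr
    exact (le_iSup₂_of_le (f := fun z (_ : z ≠ x) => W z) (a ^ j • x)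
      (hmove j (Nat.pos_of_ne_zero hj0) hjq) le_rfl) (hW _ _ _ hvW)
  rw [hsplit] at hleft
  have hv' : v ∈ ⨆ (z) (_ : z ≠ x), W z := by
    have := Submodule.sub_mem _ hleft hright
    simpa using this
  have := Submodule.disjoint_def.1 (hind x) v hvW hv'
  exact hv this

end Pool.Agent.H33.NY.A2
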